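import Mathlib
import Pool.Agent.helper58.BWc

/-!
# Factorizations of bi-infinite words over full-rank sets

We answer Q1 of MP_e67e26_co in the negative (we prove its negated form): if `X` is a finite set of
nonempty words with combinatorial rank `r_c(X) = card X`, then two `X`-factorizations of a
bi-infinite word that both contain all of `X` are shift-equivalent.  In fact, of two
`X`-factorizations that are not shift-equivalent, each contains a word of `X` that the other one
does not contain.

Sketch.  Let `F₁, F₂` be given and suppose that `F₂` contains every word that `F₁` contains; we may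
take `X` to be the set of words contained in `F₂`.  Identify two letter occurrences in words of `X`
if they are aligned at some time, and take the generated equivalence relation.  If the first letters
of two words of `X` were equivalent, then cutting the words of `X` before the positions equivalent
to a first letter would give fewer than `card X` words generating `X`; so first letters are pairwise
inequivalent, and so are last letters.  Replace letters by their classes.  If `F₁` and `F₂` have a
common boundary they are equal.  Otherwise the pair of positions evolves deterministically, so both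
are periodic.  The number of length-`m` windows of `F₁` and `F₂` (sequences of letter occurrences)
minus the number of length-`m` factors of the word of classes does not increase with `m`.  If
`F₁` and `F₂` are not shift-equivalent then for large `m` it is at least the number of windows of
`F₂`, hence at least the total length of `X`, but for `m = 1` it is smaller than that.
-/

namespace Pool.Agent.Results.MP_e67e26_co.Incomparable

variable {α : Type*}

/-- `x ∈ Y^*`: the word `x` is a concatenation of words of `Y`. -/
def InStar (Y : Finset (List α)) (x : List α) : Prop :=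
  ∃ L : List (List α), (∀ y ∈ L, y ∈ Y) ∧ L.flatten = x

/-- The combinatorial rank of a finite set `X` of words: the least number of elements of a finite
set `Y` of nonempty words with `X ⊆ Y^*`. -/
noncomputable def combRank (X : Finset (List α)) : ℕ :=
  sInf {c | ∃ Y : Finset (List α), [] ∉ Y ∧ (∀ x ∈ X, InStar Y x) ∧ Y.card = c}

/-- An `X`-factorization of the bi-infinite word `w`: words `x i ∈ X` and a strictly increasing
sequence of integers `k i` with `w(k i) w(k i + 1) ... w(k (i+1) - 1) = x i` for all `i`. -/
structure Factorization (X : Finset (List α)) (w : ℤ → α) where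
  /-- the words -/
  x : ℤ → List α
  /-- the positions -/
  k : ℤ → ℤ
  mem : ∀ i, x i ∈ X
  strictMono : StrictMono k
  spells : ∀ i, x i = List.ofFn (fun j : Fin (k (i + 1) - k i).toNat => w (k i + j))

/-- The factorization contains the word `b`. -/
def Factorization.Contains {X : Finset (List α)} {w : ℤ → α} (F : Factorization X w)
    (b : List α) : Prop := ∃ i, F.x i = b

/-- Shift-equivalence: the same bi-infinite sequence of words up to re-indexing. -/
def ShiftEquivalent {X : Finset (List α)} {w : ℤ → α} (F F' : Factorization X w) : Prop :=
  ∃ m : ℤ, ∀ i, F'.x (i + m) = F.x i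

lemma shift_of_subset (X : Finset (List α)) (hX : [] ∉ X) (hr : combRank X = X.card)
    (w : ℤ → α) (F₁ F₂ : Factorization X w) (h : ∀ b, F₁.Contains b → F₂.Contains b) :
    ShiftEquivalent F₁ F₂ := by
  classical
  set X₂ := X.filter (fun b => F₂.Contains b) with hX₂
  have h1 : Pool.Agent.helper58.BW.IsFact X₂ w F₁.x F₁.k :=
    { mem := fun i => Finset.mem_filter.mpr ⟨F₁.mem i, h _ ⟨i, rfl⟩⟩
      mono := F₁.strictMono
      spells := F₁.spells }
  have h2 : Pool.Agent.helper58.BW.IsFact X₂ w F₂.x F₂.k :=
    { mem := fun i => Finset.mem_filter.mpr ⟨F₂.mem i, ⟨i, rfl⟩⟩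
      mono := F₂.strictMono
      spells := F₂.spells }
  refine Pool.Agent.helper58.BW.mainthm (X := X₂) (fun hn => hX (Finset.mem_filter.mp hn).1) ?_
    h1 h2 (fun b hb => (Finset.mem_filter.mp hb).2)
  rintro ⟨Y, hY1, hY2, hY3⟩
  have hle : combRank X ≤ (Y ∪ (X \ X₂)).card := by
    apply Nat.sInf_le
    refine ⟨Y ∪ (X \ X₂), ?_, ?_, rfl⟩
    · intro hn
      rw [Finset.mem_union, Finset.mem_sdiff] at hn
      rcases hn with hn | hn
      · exact hY1 hn
      · exact hX hn.1
    · intro x hx
      by_cases hx2 : x ∈ X₂
      · obtain ⟨L, hL1, hL2⟩ := hY2 x hx2
        exact ⟨L, fun y hy => Finset.mem_union_left _ (hL1 y hy), hL2⟩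
      · refine ⟨[x], ?_, by simp⟩
        intro y hy
        rw [List.mem_singleton] at hy
        subst hy
        exact Finset.mem_union_right _ (Finset.mem_sdiff.mpr ⟨hx, hx2⟩)
  have h3 : (Y ∪ (X \ X₂)).card ≤ Y.card + (X \ X₂).card := Finset.card_union_le _ _
  have h4 : (X \ X₂).card + X₂.card = X.card :=
    Finset.card_sdiff_add_card_eq_card (Finset.filter_subset _ _)
  omega

/-- Let `X` be a finite set of nonempty words whose combinatorial rank is `card X`, and let `F₁`
and `F₂` be `X`-factorizations of a bi-infinite word `w`.  If `F₁` and `F₂` are not
shift-equivalent, then `F₁` contains a word of `X` not contained in `F₂`, and `F₂` contains a word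
of `X` not contained in `F₁`.  In particular two `X`-factorizations of `w` that both contain every
element of `X` are shift-equivalent, i.e. the answer to Q1 is negative. -/
theorem result (X : Finset (List α)) (hX : [] ∉ X) (hr : combRank X = X.card)
    (w : ℤ → α) (F₁ F₂ : Factorization X w) (hne : ¬ ShiftEquivalent F₁ F₂) :
    (∃ b ∈ X, F₁.Contains b ∧ ¬ F₂.Contains b) ∧ (∃ b ∈ X, F₂.Contains b ∧ ¬ F₁.Contains b) := by
  constructor
  · by_contra hcon
    push Not at hcon
    apply hne
    apply shift_of_subset X hX hr w F₁ F₂
    rintro b ⟨i, rfl⟩
    exact hcon _ (F₁.mem i) ⟨i, rfl⟩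
  · by_contra hcon
    push Not at hcon
    apply hne
    obtain ⟨m, hm⟩ := shift_of_subset X hX hr w F₂ F₁ (by
      rintro b ⟨i, rfl⟩
      exact hcon _ (F₂.mem i) ⟨i, rfl⟩)
    refine ⟨-m, fun i => ?_⟩
    have := hm (i + -m)
    rw [neg_add_cancel_right] at this
    exact this.symm

end Pool.Agent.Results.MP_e67e26_co.Incomparable
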